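import Pool.Agent.W263.EP.Brk
import Pool.Agent.W263.EP.Conc

/-!
# The leading coefficient at the centre lies between the limits of the products of local factors

`K` is a number field.  A system of real numbers `t v m` stands for the traces of the `m`-th power of
the geometric Frobenius at the finite place `v` on `H = H^w(X)`, `X` smooth projective over `K` (or on
a direct summand of it given by a projector); `S` is a finite set of places which contains all places
of bad reduction, and the Euler factors at the places of `S` are arbitrary inverse polynomials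
`B_v(Nv^{-s})⁻¹` without poles for `Re s ≥ c`, where `c = (w+1)/2` is the centre (`c = m` if `w = 2m-1`).
All that is used about the traces is the bound `|t v m| ≤ D Nv^{wm/2}`, which is Deligne's theorem for
all smooth projective `X`, with `D = dim H^w(X)`, and which Part C proves for all cohomology groups of
all products of curves `y² = f_j(x)`, `deg f_j` odd, over any number field.
-/

set_option autoImplicit false

namespace Pool.Agent.Results.MP_29b22a_nt.LeadingBracket

open NumberField IsDedekindDomain Filter Topology Polynomial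

variable {K : Type} [Field K] [NumberField K]

/-- `|t_v(m)| ≤ D Nv^{wm/2}` for all `v ∉ S` and all `m ≥ 1`. -/
def WeightBound (t : HeightOneSpectrum (𝓞 K) → ℕ → ℝ) (w : ℕ)
    (S : Finset (HeightOneSpectrum (𝓞 K))) (D : ℝ) : Prop :=
  0 ≤ D ∧ ∀ v, v ∉ S → ∀ m : ℕ, 1 ≤ m →
    |t v m| ≤ D * (Ideal.absNorm v.asIdeal : ℝ) ^ ((w : ℝ) * m / 2)

open Classical in
/-- The Euler product `L(H, s)`.  At the places `v ∉ S` the factor is
`det(1 - Frob_v Nv^{-s} | H)⁻¹ = exp(∑_{m ≥ 1} t_v(m) Nv^{-ms} / m)`; at the places of the finite set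
`S` it is `B_v(Nv^{-s})⁻¹`. -/
noncomputable def LFun (t : HeightOneSpectrum (𝓞 K) → ℕ → ℝ) (S : Finset (HeightOneSpectrum (𝓞 K)))
    (B : HeightOneSpectrum (𝓞 K) → ℂ[X]) (s : ℂ) : ℂ :=
  ∏' v : HeightOneSpectrum (𝓞 K),
    if v ∈ S then ((B v).eval (((Ideal.absNorm v.asIdeal : ℕ) : ℂ) ^ (-s)))⁻¹
    else Complex.exp (∑' m : ℕ, (t v (m + 1) : ℂ) *
      ((Ideal.absNorm v.asIdeal : ℕ) : ℂ) ^ (-((m + 1 : ℂ) * s)) / (m + 1))

/-- The inverse Euler factor at the centre `c = (w+1)/2`: the number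
`det(1 - Frob_v Nv^{-c} | H) = exp(-∑_{m ≥ 1} t_v(m) Nv^{-mc} / m)`. -/
noncomputable def centralFactor (t : HeightOneSpectrum (𝓞 K) → ℕ → ℝ) (w : ℕ)
    (v : HeightOneSpectrum (𝓞 K)) : ℝ :=
  Real.exp (-∑' m : ℕ, t v (m + 1) *
    (Ideal.absNorm v.asIdeal : ℝ) ^ (-(((m : ℝ) + 1) * (((w : ℝ) + 1) / 2))) / (m + 1))

/-- The partial product `P(x) = ∏_{v ∉ S, Nv ≤ x} det(1 - Frob_v Nv^{-c} | H)`. -/
noncomputable def partialProduct (t : HeightOneSpectrum (𝓞 K) → ℕ → ℝ) (w : ℕ)
    (S : Finset (HeightOneSpectrum (𝓞 K))) (x : ℝ) : ℝ :=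
  ∏ᶠ v ∈ {v : HeightOneSpectrum (𝓞 K) | v ∉ S ∧ (Ideal.absNorm v.asIdeal : ℝ) ≤ x},
    centralFactor t w v

/-- `F` is an analytic continuation of `L(H, s)` to a neighbourhood of the real half line `s > c`. -/
def ContinuesAlongReals (t : HeightOneSpectrum (𝓞 K) → ℕ → ℝ) (w : ℕ)
    (S : Finset (HeightOneSpectrum (𝓞 K))) (B : HeightOneSpectrum (𝓞 K) → ℂ[X]) (F : ℂ → ℂ) : Prop :=
  (∀ s : ℝ, ((w : ℝ) + 1) / 2 < s → AnalyticAt ℂ F s) ∧
    ∀ s : ℝ, ((w : ℝ) + 2) / 2 < s → F s = LFun t S B s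

/-- The corrected product
`P*(x) = |∏_{v ∈ S} B_v(Nv^{-c})| · P(x) · exp(∑_{v ∉ S, √x < Nv ≤ x} t_v(2) / (2 Nv^{w+1}))`. -/
noncomputable def starProduct (t : HeightOneSpectrum (𝓞 K) → ℕ → ℝ) (w : ℕ)
    (S : Finset (HeightOneSpectrum (𝓞 K))) (B : HeightOneSpectrum (𝓞 K) → ℂ[X]) (x : ℝ) : ℝ :=
  ‖∏ v ∈ S, (B v).eval (((Ideal.absNorm v.asIdeal : ℕ) : ℂ) ^ (-((((w : ℝ) + 1) / 2 : ℝ) : ℂ)))‖ *
    (partialProduct t w S x * Real.exp (∑ᶠ v ∈ {v : HeightOneSpectrum (𝓞 K) | v ∉ S ∧
      √x < (Ideal.absNorm v.asIdeal : ℝ) ∧ (Ideal.absNorm v.asIdeal : ℝ) ≤ x},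
        t v 2 * (Ideal.absNorm v.asIdeal : ℝ) ^ (-((w : ℝ) + 1)) / 2))

/-! ### Products of curves -/

/-- Number of affine points of `y² = f(x)` with coordinates in the extension of degree `m` of the
finite field `k`, that is, the field of the elements of the algebraic closure of `k` that are fixed
by the `m`-th power of the Frobenius of `k`. -/
noncomputable def affineCount (k : Type) [Field k] (f : k[X]) (m : ℕ) : ℕ :=
  Nat.card {P : AlgebraicClosure k × AlgebraicClosure k //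
    P.1 ^ (Nat.card k ^ m) = P.1 ∧ P.2 ^ (Nat.card k ^ m) = P.2 ∧ P.2 ^ 2 = aeval P.1 f}

/-- Trace of the `m`-th power of the Frobenius at `v` on `H¹` of the smooth projective curve
`y² = f(x)`, `deg f` odd: it is `q^m + 1` minus the number of points over the field with `q^m`
elements, and there is one point at infinity. -/
noncomputable def traceH1 (v : HeightOneSpectrum (𝓞 K)) (f : (𝓞 K)[X]) (m : ℕ) : ℤ :=
  haveI : v.asIdeal.IsMaximal := v.isMaximal
  letI : Field (𝓞 K ⧸ v.asIdeal) := Ideal.Quotient.field v.asIdeal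
  (Ideal.absNorm v.asIdeal : ℤ) ^ m + 1 -
    (affineCount (𝓞 K ⧸ v.asIdeal) (f.map (Ideal.Quotient.mk v.asIdeal)) m + 1)

/-- Trace of the `m`-th power of the Frobenius at `v` on `H^k(X)`, `X` the product of the curves
`y² = f_j(x)`: by the Künneth formula it is the coefficient of `T^k` in
`∏_j (1 + Tr(Frob^m | H¹(C_j)) T + q^m T²)`. -/
noncomputable def traceH {n : ℕ} (f : Fin n → (𝓞 K)[X]) (k : ℕ) (v : HeightOneSpectrum (𝓞 K))
    (m : ℕ) : ℝ :=
  (((∏ j, (1 + C (traceH1 v (f j) m) * X + C ((Ideal.absNorm v.asIdeal : ℤ) ^ m) * X ^ 2)).coeff k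
    : ℤ) : ℝ)

/-- The dimension of `H^k(X)`: the coefficient of `T^k` in `∏_j (1 + 2g_j T + T²)`,
`2g_j = deg f_j - 1`. -/
noncomputable def bettiNumber {n : ℕ} (f : Fin n → (𝓞 K)[X]) (k : ℕ) : ℕ :=
  (∏ j, (1 + C ((f j).natDegree - 1) * X + X ^ 2 : ℕ[X])).coeff k

theorem affineCount_eq (k : Type) [Field k] (f : k[X]) (m : ℕ) :
    affineCount k f m = Pool.Agent.H126T.affPts k f 1 m := by
  unfold affineCount Pool.Agent.H126T.affPts
  simp only [map_one, one_mul]

/-- **The leading coefficient at the centre and the products of local factors.**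

Part A.  Let `t` be a system of Frobenius traces of weight `w` over a number field `K`, as above, with
centre `c = (w+1)/2`, let `F` be an analytic continuation of `L(H, s)` to a neighbourhood of the real
half line `s > c`, and let `|F(s)| / (s - c)^r → Λ > 0` as `s → c⁺`.  Nothing is assumed about complex
zeros, a functional equation or growth.  Then

1. for every `ε > 0` there are arbitrarily large `x` with `P*(x) > (e^{rγ} / Λ - ε) (log x)^r`;
2. if `F` has no real zeros `s > c`, then for every `ε > 0` there are arbitrarily large `x` with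
`P*(x) < (e^{rγ} / Λ + ε) (log x)^r`;
3. if `F(β) = 0` with a real `β > c`, then for every `0 < δ < β - c` there are arbitrarily large `x` with
`P(x) > exp(x^δ)`.

Part B.  If `F` is analytic at `c` and vanishes there to the order `r`, then `|F(s)| / (s - c)^r → Λ` with
`Λ = |F^{(r)}(c)| / r! > 0`, the absolute value of the leading Taylor coefficient.

Part C.  The bound assumed in Part A holds for `H^k(X)`, all `k`, with `w = k` and `D = dim H^k(X)`, if
`X` is a product of curves `y² = f_j(x)` over `K`, `deg f_j` odd, and `S` contains the places which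
divide `2` or the leading coefficient of an `f_j`. -/
theorem result :
    (∀ (K : Type) [Field K] [NumberField K] (t : HeightOneSpectrum (𝓞 K) → ℕ → ℝ) (w : ℕ)
      (S : Finset (HeightOneSpectrum (𝓞 K))) (D : ℝ) (_ : WeightBound t w S D)
      (B : HeightOneSpectrum (𝓞 K) → ℂ[X])
      (_ : ∀ v ∈ S, ∀ s : ℂ, ((w : ℝ) + 1) / 2 ≤ s.re →
        (B v).eval (((Ideal.absNorm v.asIdeal : ℕ) : ℂ) ^ (-s)) ≠ 0)
      (F : ℂ → ℂ) (_ : ContinuesAlongReals t w S B F) (r : ℕ) (Λ : ℝ) (_ : 0 < Λ)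
      (_ : Tendsto (fun s : ℝ => ‖F s‖ / (s - ((w : ℝ) + 1) / 2) ^ r) (𝓝[>] (((w : ℝ) + 1) / 2))
        (𝓝 Λ)),
      (∀ ε : ℝ, 0 < ε → ∃ᶠ x : ℝ in atTop,
        (Real.exp (r * Real.eulerMascheroniConstant) / Λ - ε) * (Real.log x) ^ r <
          starProduct t w S B x) ∧
      ((∀ s : ℝ, ((w : ℝ) + 1) / 2 < s → F s ≠ 0) → ∀ ε : ℝ, 0 < ε → ∃ᶠ x : ℝ in atTop,
        starProduct t w S B x <
          (Real.exp (r * Real.eulerMascheroniConstant) / Λ + ε) * (Real.log x) ^ r) ∧
      (∀ β δ : ℝ, F β = 0 → 0 < δ → δ < β - ((w : ℝ) + 1) / 2 → ∃ᶠ x : ℝ in atTop,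
        Real.exp (x ^ δ) < partialProduct t w S x)) ∧
    (∀ (c : ℝ) (F : ℂ → ℂ) (r : ℕ), AnalyticAt ℂ F c → analyticOrderAt F c = r →
      0 < ‖iteratedDeriv r F c‖ / (r.factorial : ℝ) ∧
        Tendsto (fun s : ℝ => ‖F s‖ / (s - c) ^ r) (𝓝[>] c)
          (𝓝 (‖iteratedDeriv r F c‖ / (r.factorial : ℝ)))) ∧
    (∀ (K : Type) [Field K] [NumberField K] (n : ℕ) (f : Fin n → (𝓞 K)[X])
      (_ : ∀ j, Odd (f j).natDegree) (S : Finset (HeightOneSpectrum (𝓞 K)))
      (_ : ∀ v, v ∉ S → ∀ j, 2 * (f j).leadingCoeff ∉ v.asIdeal) (k : ℕ),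
      WeightBound (traceH f k) k S (bettiNumber f k)) := by
  refine ⟨?_, ?_, ?_⟩
  · intro K _ _ t w S D ht B hB F hF r Λ hΛ h
    have E : Pool.Agent.W263.EP.TData (Pool.Agent.H341R2.sysK K)
        (Pool.Agent.W263.EP.tn (Pool.Agent.H341R2.sysK K)
          (S : Set (HeightOneSpectrum (𝓞 K))) t (w : ℝ)) D :=
      Pool.Agent.W263.EP.tdata ht.1 fun v hv m hm => ht.2 v hv m hm
    have hL : ∀ s, Pool.Agent.W263.EP.LFB (Pool.Agent.H341R2.sysK K) S B t s = LFun t S B s :=
      fun s => rfl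
    have hF' : Pool.Agent.W263.EP.IsContB (Pool.Agent.H341R2.sysK K) S B t (w : ℝ) F := hF
    refine ⟨fun ε hε => ?_, fun hne ε hε => ?_, fun β δ h0 hδ hβ => ?_⟩
    · exact Pool.Agent.W263.EP.bracket_upB (S := Pool.Agent.H341R2.sysK K) (Bs := S) (B := B)
        (tr := t) (ω := (w : ℝ)) E hB hF' hΛ h hε
    · exact Pool.Agent.W263.EP.bracket_downB (S := Pool.Agent.H341R2.sysK K) (Bs := S) (B := B)
        (tr := t) (ω := (w : ℝ)) E hB hF' hΛ h hne hε
    · exact Pool.Agent.W263.EP.real_zeroB (S := Pool.Agent.H341R2.sysK K) (Bs := S) (B := B)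
        (tr := t) (ω := (w : ℝ)) E hB hF' h0 hδ hβ
  · intro c F r h hr
    exact Pool.Agent.W263.EP.lead_limit_at h hr
  · intro K _ _ n f hodd S hS k
    refine ⟨by positivity, fun v hv m hm => ?_⟩
    have h1 := Pool.Agent.W263.EP.trHk_bound f hodd (hS v hv) k m hm
    have h2 : ∀ j, traceH1 v (f j) m = Pool.Agent.H126T.traceH1 v (f j) 1 m := by
      intro j
      unfold traceH1 Pool.Agent.H126T.traceH1
      rw [map_one, affineCount_eq]
      rfl
    have h3 : traceH f k v m = (Pool.Agent.W263.EP.trHk v f k m : ℝ) := by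
      unfold traceH Pool.Agent.W263.EP.trHk
      simp only [h2]
      rfl
    rw [h3]
    exact h1

end Pool.Agent.Results.MP_29b22a_nt.LeadingBracket
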