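import Pool.Agent.W524.LV.Sharp

/-!
# One-sided criteria for the order and the leading coefficient at the centre

`K` is a number field.  A system of real numbers `t v m` stands for the traces of the `m`-th power of
the geometric Frobenius at the finite place `v` on `H = H^w(X)`, `X` smooth projective over `K` (or on
a direct summand of it given by a projector); `S` is a finite set of places which contains all places
of bad reduction, and the Euler factors at the places of `S` are arbitrary inverse polynomials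
`B_v(Nv^{-s})⁻¹` without poles for `Re s ≥ c`, where `c = (w+1)/2` is the centre (`c = m` if `w = 2m-1`).
All that is used about the traces is the bound `|t v m| ≤ D Nv^{wm/2}`, which is Deligne's theorem for
all smooth projective `X`, with `D = dim H^w(X)`.

The theorem describes, in terms of the partial products of the local factors at the centre, when the
leading coefficient and the order of vanishing of `L(H, s)` at the centre can be read off from local
factors.  All conditions are ONE-SIDED and concern windows `[x, l x]` for a single `l > 1`.  For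
`H = H¹(E)`, `E/ℚ` an elliptic curve, Goldfeld (1982), Kuo and Murty, and Conrad (2005) have two-sided
criteria for the existence of the limit.
-/

set_option autoImplicit false

namespace Pool.Agent.Results.MP_29b22a_nt.OneSidedLeadingTerm

open NumberField IsDedekindDomain Filter Topology Polynomial

variable {K : Type} [Field K] [NumberField K]

/-- `|t_v(m)| ≤ D Nv^{wm/2}` for all `v ∉ S` and all `m ≥ 1`. -/
def WeightBound (t : HeightOneSpectrum (𝓞 K) → ℕ → ℝ) (w : ℕ)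
    (S : Finset (HeightOneSpectrum (𝓞 K))) (D : ℝ) : Prop :=
  0 ≤ D ∧ ∀ v, v ∉ S → ∀ m : ℕ, 1 ≤ m →
    |t v m| ≤ D * (Ideal.absNorm v.asIdeal : ℝ) ^ ((w : ℝ) * m / 2)

/-- The Euler factors at the places of `S` have no poles for `Re s ≥ c = (w+1)/2`. -/
def BadFactors (w : ℕ) (S : Finset (HeightOneSpectrum (𝓞 K)))
    (B : HeightOneSpectrum (𝓞 K) → ℂ[X]) : Prop :=
  ∀ v ∈ S, ∀ s : ℂ, ((w : ℝ) + 1) / 2 ≤ s.re →
    (B v).eval (((Ideal.absNorm v.asIdeal : ℕ) : ℂ) ^ (-s)) ≠ 0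

open Classical in
/-- The Euler product `L(H, s)`.  At the places `v ∉ S` the factor is
`det(1 - Frob_v Nv^{-s} | H)⁻¹ = exp(∑_{m ≥ 1} t_v(m) Nv^{-ms} / m)`; at the places of the finite set
`S` it is `B_v(Nv^{-s})⁻¹`. -/
noncomputable def LFun (t : HeightOneSpectrum (𝓞 K) → ℕ → ℝ) (S : Finset (HeightOneSpectrum (𝓞 K)))
    (B : HeightOneSpectrum (𝓞 K) → ℂ[X]) (s : ℂ) : ℂ :=
  ∏' v : HeightOneSpectrum (𝓞 K),
    if v ∈ S then ((B v).eval (((Ideal.absNorm v.asIdeal : ℕ) : ℂ) ^ (-s)))⁻¹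
    else Complex.exp (∑' m : ℕ, (t v (m + 1) : ℂ) *
      ((Ideal.absNorm v.asIdeal : ℕ) : ℂ) ^ (-((m + 1 : ℂ) * s)) / (m + 1))

/-- `F` is an analytic continuation of `L(H, s)` to a neighbourhood of the real half line `s ≥ c`. -/
def Continues (t : HeightOneSpectrum (𝓞 K) → ℕ → ℝ) (w : ℕ)
    (S : Finset (HeightOneSpectrum (𝓞 K))) (B : HeightOneSpectrum (𝓞 K) → ℂ[X]) (F : ℂ → ℂ) : Prop :=
  (∀ s : ℝ, ((w : ℝ) + 1) / 2 ≤ s → AnalyticAt ℂ F s) ∧
    ∀ s : ℝ, ((w : ℝ) + 2) / 2 < s → F s = LFun t S B s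

/-- The inverse Euler factor at the centre `c = (w+1)/2`: the number
`det(1 - Frob_v Nv^{-c} | H) = exp(-∑_{m ≥ 1} t_v(m) Nv^{-mc} / m)`. -/
noncomputable def centralFactor (t : HeightOneSpectrum (𝓞 K) → ℕ → ℝ) (w : ℕ)
    (v : HeightOneSpectrum (𝓞 K)) : ℝ :=
  Real.exp (-∑' m : ℕ, t v (m + 1) *
    (Ideal.absNorm v.asIdeal : ℝ) ^ (-(((m : ℝ) + 1) * (((w : ℝ) + 1) / 2))) / (m + 1))

/-- The partial product `P(x) = ∏_{v ∉ S, Nv ≤ x} det(1 - Frob_v Nv^{-c} | H)`. -/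
noncomputable def partialProduct (t : HeightOneSpectrum (𝓞 K) → ℕ → ℝ) (w : ℕ)
    (S : Finset (HeightOneSpectrum (𝓞 K))) (x : ℝ) : ℝ :=
  ∏ᶠ v ∈ {v : HeightOneSpectrum (𝓞 K) | v ∉ S ∧ (Ideal.absNorm v.asIdeal : ℝ) ≤ x},
    centralFactor t w v

/-- The corrected product
`P*(x) = |∏_{v ∈ S} B_v(Nv^{-c})| · P(x) · exp(∑_{v ∉ S, √x < Nv ≤ x} t_v(2) / (2 Nv^{w+1}))`. -/
noncomputable def starProduct (t : HeightOneSpectrum (𝓞 K) → ℕ → ℝ) (w : ℕ)
    (S : Finset (HeightOneSpectrum (𝓞 K))) (B : HeightOneSpectrum (𝓞 K) → ℂ[X]) (x : ℝ) : ℝ :=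
  ‖∏ v ∈ S, (B v).eval (((Ideal.absNorm v.asIdeal : ℕ) : ℂ) ^ (-((((w : ℝ) + 1) / 2 : ℝ) : ℂ)))‖ *
    (partialProduct t w S x * Real.exp (∑ᶠ v ∈ {v : HeightOneSpectrum (𝓞 K) | v ∉ S ∧
      √x < (Ideal.absNorm v.asIdeal : ℝ) ∧ (Ideal.absNorm v.asIdeal : ℝ) ≤ x},
        t v 2 * (Ideal.absNorm v.asIdeal : ℝ) ^ (-((w : ℝ) + 1)) / 2))

/-- `Q` has the exact order of magnitude `(log x) ^ q`: `a (log x) ^ q ≤ Q(x) ≤ b (log x) ^ q` for
large `x`, with constants `a, b > 0`. -/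
def ExactOrder (Q : ℝ → ℝ) (q : ℝ) : Prop :=
  ∃ a b : ℝ, 0 < a ∧ 0 < b ∧ ∀ᶠ x : ℝ in atTop,
    a * Real.log x ^ q ≤ Q x ∧ Q x ≤ b * Real.log x ^ q

/-- `Q(y) ≤ C Q(x)` for all large `x` and `x ≤ y ≤ l x`. -/
def Up (Q : ℝ → ℝ) (l C : ℝ) : Prop :=
  ∀ᶠ x : ℝ in atTop, ∀ y, x ≤ y → y ≤ l * x → Q y ≤ C * Q x

/-- `Q(x) ≤ C Q(y)` for all large `x` and `x ≤ y ≤ l x`. -/
def Down (Q : ℝ → ℝ) (l C : ℝ) : Prop :=
  ∀ᶠ x : ℝ in atTop, ∀ y, x ≤ y → y ≤ l * x → Q x ≤ C * Q y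

/-- The absolute value `|F^{(r)}(c)| / r!` of the leading coefficient of `F` at `c`. -/
noncomputable def leadAbs (F : ℂ → ℂ) (c : ℝ) (r : ℕ) : ℝ :=
  ‖iteratedDeriv r F c‖ / (r.factorial : ℝ)

/-- The expected constant `e^{γ r} / |L*(H, c)|`. -/
noncomputable def constant (F : ℂ → ℂ) (c : ℝ) (r : ℕ) : ℝ :=
  Real.exp (r * Real.eulerMascheroniConstant) / leadAbs F c r

/-- `L(H, s)` has an analytic continuation to the half plane `Re s > c` without zeros there, which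
agrees with `F` on the real line. -/
def ZeroFree (t : HeightOneSpectrum (𝓞 K) → ℕ → ℝ) (w : ℕ)
    (S : Finset (HeightOneSpectrum (𝓞 K))) (B : HeightOneSpectrum (𝓞 K) → ℂ[X]) (F : ℂ → ℂ) : Prop :=
  ∃ G : ℂ → ℂ, DifferentiableOn ℂ G {s : ℂ | ((w : ℝ) + 1) / 2 < s.re} ∧
    (∀ s : ℂ, ((w : ℝ) + 1) / 2 < s.re → G s ≠ 0) ∧
    (∀ s : ℂ, ((w : ℝ) + 2) / 2 < s.re → G s = LFun t S B s) ∧
    ∀ s : ℝ, ((w : ℝ) + 1) / 2 < s → F s = G s

/-- **One-sided criteria at the centre.**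

Let `t` be a system of Frobenius traces of weight `w` over a number field `K`, as above, with centre
`c = (w+1)/2`, and let `F` be an analytic continuation of `L(H, s)` to a neighbourhood of the real half
line `s ≥ c`.  Nothing is assumed about complex zeros, a functional equation or growth.  Then the
order `r` of `F` at `c` is finite, `Λ = |F^{(r)}(c)| / r! > 0`, and with `A = e^{γ r} / Λ`:

A. Equivalent are: `P` has the exact order `(log x)^r`; `P` has the exact order `(log x)^m` for some real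
`m`; for some `l > 1`, `C > 0`: `P(y) ≤ C P(x)` for large `x` and `x ≤ y ≤ l x`; `F` has no real zeros
`s > c`, and for some `l > 1`, `C > 0`: `P(x) ≤ C P(y)` for such `x`, `y`.

B. Equivalent are: `P*(x) / (log x)^r → A`; `P*(x) ~ A' (log x)^m` for some real `m` and `A' > 0`; for some
`l > 1` and all `C > 1`: `P(y) ≤ C P(x)` for large `x` and `x ≤ y ≤ l x`; `F` has no real zeros `s > c`, and
for some `l > 1` and all `C > 1`: `P(x) ≤ C P(y)` for such `x`, `y`.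

C. For a real number `q`, `P` has the exact order `(log x)^q` if and only if `r = q` and the third
condition of A holds; `P*(x) ~ A' (log x)^q` for some `A' > 0` if and only if `r = q` and the third
condition of B holds.

D. If `P*(x) ≤ (A + ε) (log x)^r` for all `ε > 0` and all large `x`, or if `F` has no real zeros `s > c` and
`P*(x) ≥ (A - ε) (log x)^r` for all `ε > 0` and all large `x`, then for all `l > 1`
`∫_x^{lx} |log (P*(t) / (A (log t)^r))| dt/t → 0`.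

E. The third condition of A (hence each condition of A, B) and each of the two conditions of D imply
that `L(H, s)` has an analytic continuation to `Re s > c` without zeros. -/
theorem result (K : Type) [Field K] [NumberField K] (t : HeightOneSpectrum (𝓞 K) → ℕ → ℝ) (w : ℕ)
    (S : Finset (HeightOneSpectrum (𝓞 K))) (D : ℝ) (ht : WeightBound t w S D)
    (B : HeightOneSpectrum (𝓞 K) → ℂ[X]) (hB : BadFactors w S B)
    (F : ℂ → ℂ) (hF : Continues t w S B F) :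
    ∃ r : ℕ, analyticOrderAt F ((((w : ℝ) + 1) / 2 : ℝ) : ℂ) = r ∧
    0 < leadAbs F (((w : ℝ) + 1) / 2) r ∧
    -- A
    List.TFAE [
      ExactOrder (partialProduct t w S) r,
      ∃ m : ℝ, ExactOrder (partialProduct t w S) m,
      ∃ l C : ℝ, 1 < l ∧ 0 < C ∧ Up (partialProduct t w S) l C,
      (∀ s : ℝ, ((w : ℝ) + 1) / 2 < s → F s ≠ 0) ∧
        ∃ l C : ℝ, 1 < l ∧ 0 < C ∧ Down (partialProduct t w S) l C] ∧
    -- B
    List.TFAE [
      Tendsto (fun x : ℝ => starProduct t w S B x / Real.log x ^ r) atTop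
        (𝓝 (constant F (((w : ℝ) + 1) / 2) r)),
      ∃ m A : ℝ, 0 < A ∧
        Tendsto (fun x : ℝ => starProduct t w S B x / Real.log x ^ m) atTop (𝓝 A),
      ∃ l : ℝ, 1 < l ∧ ∀ C : ℝ, 1 < C → Up (partialProduct t w S) l C,
      (∀ s : ℝ, ((w : ℝ) + 1) / 2 < s → F s ≠ 0) ∧
        ∃ l : ℝ, 1 < l ∧ ∀ C : ℝ, 1 < C → Down (partialProduct t w S) l C] ∧
    -- C
    (∀ q : ℝ,
      (ExactOrder (partialProduct t w S) q ↔
        (r : ℝ) = q ∧ ∃ l C : ℝ, 1 < l ∧ 0 < C ∧ Up (partialProduct t w S) l C) ∧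
      ((∃ A : ℝ, 0 < A ∧
          Tendsto (fun x : ℝ => starProduct t w S B x / Real.log x ^ q) atTop (𝓝 A)) ↔
        (r : ℝ) = q ∧ ∃ l : ℝ, 1 < l ∧ ∀ C : ℝ, 1 < C → Up (partialProduct t w S) l C)) ∧
    -- D, E
    (((∀ ε : ℝ, 0 < ε → ∀ᶠ x : ℝ in atTop,
          starProduct t w S B x ≤ (constant F (((w : ℝ) + 1) / 2) r + ε) * Real.log x ^ r) ∨
        ((∀ s : ℝ, ((w : ℝ) + 1) / 2 < s → F s ≠ 0) ∧ ∀ ε : ℝ, 0 < ε → ∀ᶠ x : ℝ in atTop,
          (constant F (((w : ℝ) + 1) / 2) r - ε) * Real.log x ^ r ≤ starProduct t w S B x)) →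
      ZeroFree t w S B F ∧ ∀ l : ℝ, 1 < l →
        Tendsto (fun x : ℝ => ∫ y in Set.Ioc x (l * x),
          |Real.log (starProduct t w S B y /
            (constant F (((w : ℝ) + 1) / 2) r * Real.log y ^ r))| / y) atTop (𝓝 0)) ∧
    (∀ l C : ℝ, 1 < l → 0 < C → Up (partialProduct t w S) l C → ZeroFree t w S B F) := by
  have E : Pool.Agent.W263.EP.TData (Pool.Agent.H341R2.sysK K)
      (Pool.Agent.W263.EP.tn (Pool.Agent.H341R2.sysK K)
        (S : Set (HeightOneSpectrum (𝓞 K))) t (w : ℝ)) D :=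
    Pool.Agent.W263.EP.tdata ht.1 fun v hv m hm => ht.2 v hv m hm
  have hF' : Pool.Agent.W263.EP.IsContB (Pool.Agent.H341R2.sysK K) S B t (w : ℝ) F :=
    ⟨fun s hs => hF.1 s hs.le, hF.2⟩
  have hA : AnalyticAt ℂ F ((((w : ℝ) + 1) / 2 : ℝ) : ℂ) := hF.1 _ le_rfl
  have hSl := Pool.Agent.W263.EP.slow_sysK K
  obtain ⟨r, hr⟩ := Pool.Agent.W524.LV.order_finite (S := Pool.Agent.H341R2.sysK K) (Bs := S)
    (B := B) (tr := t) (ω := (w : ℝ)) E hB hF' hA
  have T1 := Pool.Agent.W524.LV.order_tfae' (S := Pool.Agent.H341R2.sysK K) (Bs := S)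
    (B := B) (tr := t) (ω := (w : ℝ)) E hSl hB hF' hA hr
  have T2 := Pool.Agent.W524.LV.limit_tfae' (S := Pool.Agent.H341R2.sysK K) (Bs := S)
    (B := B) (tr := t) (ω := (w : ℝ)) E hSl hB hF' hA hr
  have hz : ∀ G : ℂ → ℂ, Pool.Agent.W263.EP.IsFullB (Pool.Agent.H341R2.sysK K) S B t (w : ℝ) G →
      (∀ s : ℝ, ((w : ℝ) + 1) / 2 < s → F s = G s) → ZeroFree t w S B F :=
    fun G hG h => ⟨G, hG.1, hG.2.1, hG.2.2, h⟩
  refine ⟨r, hr, (Pool.Agent.W263.EP.lead_limit_at hA hr).1, ?_, ?_, fun q => ⟨?_, ?_⟩, ?_, ?_⟩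
  · tfae_have 1 → 2 := (T1.out 0 1).mp
    tfae_have 2 → 3 := (T1.out 1 2).mp
    tfae_have 3 → 4 := (T1.out 2 3).mp
    tfae_have 4 → 1 := (T1.out 3 0).mp
    tfae_finish
  · tfae_have 1 → 2 := (T2.out 0 1).mp
    tfae_have 2 → 3 := (T2.out 1 2).mp
    tfae_have 3 → 4 := (T2.out 2 3).mp
    tfae_have 4 → 1 := (T2.out 3 0).mp
    tfae_finish
  · exact Pool.Agent.W524.LV.eord_iff_order (S := Pool.Agent.H341R2.sysK K) (Bs := S)
      (B := B) (tr := t) (ω := (w : ℝ)) E hSl hB hF' hA hr q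
  · exact Pool.Agent.W524.LV.lim_iff_order (S := Pool.Agent.H341R2.sysK K) (Bs := S)
      (B := B) (tr := t) (ω := (w : ℝ)) E hSl hB hF' hA hr q
  · rintro (h | ⟨hne, h⟩)
    · obtain ⟨hconv, h1⟩ := Pool.Agent.W524.LV.sharp_up (S := Pool.Agent.H341R2.sysK K) (Bs := S)
        (B := B) (tr := t) (ω := (w : ℝ)) E hB hF' hA hr h
      obtain ⟨G, hG, hFG⟩ := Pool.Agent.W524.LV.ext_of_conv E hB hF' hconv
      exact ⟨hz G hG hFG, h1⟩
    · obtain ⟨hconv, h1⟩ := Pool.Agent.W524.LV.sharp_lo (S := Pool.Agent.H341R2.sysK K) (Bs := S)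
        (B := B) (tr := t) (ω := (w : ℝ)) E hB hF' hA hr hne h
      obtain ⟨G, hG, hFG⟩ := Pool.Agent.W524.LV.ext_of_conv E hB hF' hconv
      exact ⟨hz G hG hFG, h1⟩
  · intro l C hl hC h
    obtain ⟨G, hG, hFG⟩ := Pool.Agent.W524.LV.ext_of_WUp (S := Pool.Agent.H341R2.sysK K) (Bs := S)
      (B := B) (tr := t) (ω := (w : ℝ)) E hB hF' hl hC h
    exact hz G hG hFG

end Pool.Agent.Results.MP_29b22a_nt.OneSidedLeadingTerm
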