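import Pool.Agent.W263.SP.Gen
import Pool.Agent.W263.EP.Conc

/-!
# The leading coefficient at the centre and partial Euler products outside of sparse sets

`K` is a number field.  A system of real numbers `t v j` stands for the traces of the `j`-th power of
the geometric Frobenius at the finite place `v` on `H = H^{2m-1}(X)`, `S` is a finite set of places
which contains all places of bad reduction, and `L(H, s)` is the Euler product over the places `v ∉ S`.
All that is used about the traces is the bound `|t v j| ≤ D Nv^{(2m-1)j/2}`, which is Deligne's theorem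
for all smooth projective `X`, with `D = dim H^{2m-1}(X)`, and which Part B proves for all products of
curves `y² = f_i(x)`, `deg f_i` odd, over any number field.  Let `F` be the analytic continuation of
`L(H, s)` to `Re s > m - 1`, of polynomial growth, with order `n` and leading coefficient of absolute value
`e^μ` at `s = m`.  One expects of the partial sums of `log L(H, m)`

  `G(x) = ∑_{Nv^j ≤ x} t_v(j) / (j Nv^{jm}) = μ - n (log log x + γ) + o(1)`,

which is the analogue of the original conjecture of Birch and Swinnerton-Dyer, but this is deeper than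
the Riemann hypothesis.  Here it is shown that the Riemann hypothesis (`F(s) ≠ 0` for `Re s > m`), `n = ρ` and
`μ = ν` are together equivalent to `G(x) = ν - ρ (log log x + γ)` outside of very sparse sets, with the
error term `O((log log x)³ / log x)`, if one mean of `G` has a weak lower bound.  So, on the Riemann
hypothesis, order and leading coefficient can be read off from the products at almost all `x`.
-/

set_option autoImplicit false

namespace Pool.Agent.Results.MP_29b22a_nt.SparseExceptions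

open NumberField IsDedekindDomain Filter Topology Polynomial MeasureTheory Set
open Pool.Agent.W263.SP (SparseLaw)

variable {K : Type} [Field K] [NumberField K]

/-- `|t_v(j)| ≤ D Nv^{(2m-1)j/2}` for all `v ∉ S` and all `j ≥ 1`. -/
def WeightBound (t : HeightOneSpectrum (𝓞 K) → ℕ → ℝ) (m : ℕ)
    (S : Finset (HeightOneSpectrum (𝓞 K))) (D : ℝ) : Prop :=
  0 ≤ D ∧ ∀ v, v ∉ S → ∀ j : ℕ, 1 ≤ j →
    |t v j| ≤ D * (Ideal.absNorm v.asIdeal : ℝ) ^ ((2 * (m : ℝ) - 1) * j / 2)

open Classical in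
/-- The Euler product `L(H, s)` over the places `v ∉ S`, the factor at `v` is
`det(1 - Frob_v Nv^{-s} | H)⁻¹ = exp(∑_{j ≥ 1} t_v(j) Nv^{-js} / j)`. -/
noncomputable def LFun (t : HeightOneSpectrum (𝓞 K) → ℕ → ℝ) (S : Finset (HeightOneSpectrum (𝓞 K)))
    (s : ℂ) : ℂ :=
  ∏' v : HeightOneSpectrum (𝓞 K),
    if v ∈ S then 1
    else Complex.exp (∑' j : ℕ, (t v (j + 1) : ℂ) *
      ((Ideal.absNorm v.asIdeal : ℕ) : ℂ) ^ (-((j + 1 : ℂ) * s)) / (j + 1))

/-- `G_k(x) = ∑_{v ∉ S, j ≥ 1, Nv^j ≤ x} (1 - log Nv^j / log x)^k t_v(j) / (j Nv^{jm})`, the Riesz mean of order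
`k` of the series for `log L(H, m)`; `G = G_0`. -/
noncomputable def logSum (t : HeightOneSpectrum (𝓞 K) → ℕ → ℝ) (m : ℕ)
    (S : Finset (HeightOneSpectrum (𝓞 K))) (k : ℕ) (x : ℝ) : ℝ :=
  ∑ᶠ q ∈ {q : HeightOneSpectrum (𝓞 K) × ℕ |
      q.1 ∉ S ∧ 1 ≤ q.2 ∧ (Ideal.absNorm q.1.asIdeal : ℝ) ^ q.2 ≤ x},
    (1 - (q.2 : ℝ) * Real.log (Ideal.absNorm q.1.asIdeal) / Real.log x) ^ k *
      (t q.1 q.2 / ((q.2 : ℝ) * (Ideal.absNorm q.1.asIdeal : ℝ) ^ (q.2 * m)))

/-- `G(x) + ρ (log log x + γ) - μ`. -/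
noncomputable def dev (t : HeightOneSpectrum (𝓞 K) → ℕ → ℝ) (m : ℕ)
    (S : Finset (HeightOneSpectrum (𝓞 K))) (ρ μ x : ℝ) : ℝ :=
  logSum t m S 0 x + ρ * (Real.log (Real.log x) + Real.eulerMascheroniConstant) - μ

/-- `G_1(x) ≥ -C log log x` for some `C` and all large `x`. -/
def LowerMean (t : HeightOneSpectrum (𝓞 K) → ℕ → ℝ) (m : ℕ)
    (S : Finset (HeightOneSpectrum (𝓞 K))) : Prop :=
  ∃ C : ℝ, ∀ᶠ x : ℝ in atTop, -(C * Real.log (Real.log x)) ≤ logSum t m S 1 x

/-- `F` is an analytic continuation of `L(H, s)` to the half plane `Re s > a`, `a ≤ m`. -/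
def Continues (t : HeightOneSpectrum (𝓞 K) → ℕ → ℝ) (m : ℕ)
    (S : Finset (HeightOneSpectrum (𝓞 K))) (F : ℂ → ℂ) (a : ℝ) : Prop :=
  (∀ s : ℂ, a < s.re → DifferentiableAt ℂ F s) ∧
    ∀ s : ℂ, (m : ℝ) + 1 / 2 < s.re → F s = LFun t S s

/-- `F` is meromorphic at `s = m` of order `n`, and `log |F(s)| - n log (s - m) → μ` as `s → m⁺`, that is,
`e^μ` is the absolute value of the leading coefficient. -/
def HasLeading (m : ℕ) (F : ℂ → ℂ) (n : ℤ) (μ : ℝ) : Prop :=
  MeromorphicAt F m ∧ meromorphicOrderAt F m = n ∧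
    Tendsto (fun s : ℝ => Real.log ‖F s‖ - n * Real.log (s - m)) (𝓝[>] (m : ℝ)) (𝓝 μ)

/-! ### Products of curves -/

/-- Number of affine points of `y² = f(x)` with coordinates in the extension of degree `j` of the
finite field `k`, that is, the field of the elements of the algebraic closure of `k` that are fixed
by the `j`-th power of the Frobenius of `k`. -/
noncomputable def affineCount (k : Type) [Field k] (f : k[X]) (j : ℕ) : ℕ :=
  Nat.card {P : AlgebraicClosure k × AlgebraicClosure k //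
    P.1 ^ (Nat.card k ^ j) = P.1 ∧ P.2 ^ (Nat.card k ^ j) = P.2 ∧ P.2 ^ 2 = aeval P.1 f}

/-- Trace of the `j`-th power of the Frobenius at `v` on `H¹` of the smooth projective curve
`y² = f(x)`, `deg f` odd: it is `q^j + 1` minus the number of points over the field with `q^j`
elements, and there is one point at infinity. -/
noncomputable def traceH1 (v : HeightOneSpectrum (𝓞 K)) (f : (𝓞 K)[X]) (j : ℕ) : ℤ :=
  haveI : v.asIdeal.IsMaximal := v.isMaximal
  letI : Field (𝓞 K ⧸ v.asIdeal) := Ideal.Quotient.field v.asIdeal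
  (Ideal.absNorm v.asIdeal : ℤ) ^ j + 1 -
    (affineCount (𝓞 K ⧸ v.asIdeal) (f.map (Ideal.Quotient.mk v.asIdeal)) j + 1)

/-- Trace of the `j`-th power of the Frobenius at `v` on `H^{2m-1}(X)`, `X` the product of the curves
`y² = f_i(x)`: by the Künneth formula it is the coefficient of `T^{2m-1}` in
`∏_i (1 + Tr(Frob^j | H¹(C_i)) T + q^j T²)`, `q = Nv`. -/
noncomputable def traceH {n : ℕ} (f : Fin n → (𝓞 K)[X]) (m : ℕ) (v : HeightOneSpectrum (𝓞 K))
    (j : ℕ) : ℝ :=
  (((∏ i, (1 + C (traceH1 v (f i) j) * X + C ((Ideal.absNorm v.asIdeal : ℤ) ^ j) * X ^ 2)).coeff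
    (2 * m - 1) : ℤ) : ℝ)

/-- The dimension of `H^{2m-1}(X)`: the coefficient of `T^{2m-1}` in `∏_i (1 + 2g_i T + T²)`,
`2g_i = deg f_i - 1`. -/
noncomputable def bettiNumber {n : ℕ} (f : Fin n → (𝓞 K)[X]) (m : ℕ) : ℕ :=
  (∏ i, (1 + C ((f i).natDegree - 1) * X + X ^ 2 : ℕ[X])).coeff (2 * m - 1)

/-! ### Conversion to the general setting -/

theorem affineCount_eq (k : Type) [Field k] (f : k[X]) (m : ℕ) :
    affineCount k f m = Pool.Agent.H126T.affPts k f 1 m := by
  unfold affineCount Pool.Agent.H126T.affPts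
  simp only [map_one, one_mul]

theorem cen (m : ℕ) : ((2 * (m : ℝ) - 1) + 1) / 2 = m := by ring

theorem cen2 (m : ℕ) : ((2 * (m : ℝ) - 1) + 2) / 2 = (m : ℝ) + 1 / 2 := by ring

theorem norm_ge_two (v : HeightOneSpectrum (𝓞 K)) : (2 : ℝ) ≤ (Ideal.absNorm v.asIdeal : ℝ) :=
  Pool.Agent.W263.EP.N_real_two (S := Pool.Agent.H341R2.sysK K) v

theorem tdata {t : HeightOneSpectrum (𝓞 K) → ℕ → ℝ} {m : ℕ}
    {S : Finset (HeightOneSpectrum (𝓞 K))} {D : ℝ} (ht : WeightBound t m S D) :
    Pool.Agent.W263.EP.TData (Pool.Agent.H341R2.sysK K)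
      (Pool.Agent.W263.EP.tn (Pool.Agent.H341R2.sysK K)
        (S : Set (HeightOneSpectrum (𝓞 K))) t (2 * (m : ℝ) - 1)) D :=
  Pool.Agent.W263.EP.tdata ht.1 fun v hv j hj => ht.2 v hv j hj

theorem MK_eq (t : HeightOneSpectrum (𝓞 K) → ℕ → ℝ) (m : ℕ)
    (S : Finset (HeightOneSpectrum (𝓞 K))) (k : ℕ) (x : ℝ) :
    Pool.Agent.W263.LG.MK (Pool.Agent.H341R2.sysK K) (S : Set (HeightOneSpectrum (𝓞 K))) t
      (2 * (m : ℝ) - 1) k x = logSum t m S k x := by
  unfold Pool.Agent.W263.LG.MK logSum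
  refine finsum_mem_eq_of_bijOn (fun p => (p.1, p.2 + 1)) ⟨?_, ?_, ?_⟩ ?_
  · rintro ⟨v, j⟩ ⟨h1, h2⟩
    exact ⟨h1, by simp, h2⟩
  · rintro ⟨v, j⟩ _ ⟨v', j'⟩ _ h
    have h1 := (Prod.ext_iff.mp h).1
    have h2 := (Prod.ext_iff.mp h).2
    simp only [Nat.add_right_cancel_iff] at h1 h2
    exact Prod.ext h1 h2
  · rintro ⟨v, j⟩ ⟨h1, h2, h3⟩
    simp only at h1 h2 h3
    obtain ⟨i, rfl⟩ : ∃ i, j = i + 1 := ⟨j - 1, by omega⟩
    exact ⟨(v, i), ⟨h1, h3⟩, rfl⟩
  · rintro ⟨v, j⟩ _
    have hN : (0 : ℝ) < (Ideal.absNorm v.asIdeal : ℝ) := by linarith [norm_ge_two v]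
    have e : ((Pool.Agent.H341R2.sysK K).N v : ℝ) = (Ideal.absNorm v.asIdeal : ℝ) := rfl
    simp only []
    have e2 : (-(((j : ℝ) + 1) * (((2 * (m : ℝ) - 1) + 1) / 2))) = -(((j + 1) * m : ℕ) : ℝ) := by
      rw [cen m]; push_cast; ring
    rw [e, e2, Real.rpow_neg hN.le, Real.rpow_natCast]
    push_cast
    congr 1
    have h1 : ((j : ℝ) + 1) ≠ 0 := by positivity
    have h2 : (Ideal.absNorm v.asIdeal : ℝ) ^ ((j + 1) * m) ≠ 0 := by positivity
    field_simp

/-- **The law outside of sparse sets.**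

Part A.  Let `t` be a system of Frobenius traces of weight `2m - 1` over a number field `K`, as above, and
let `F` be an analytic continuation of `L(H, s)` to `Re s > m - 1`, of polynomial growth, of order `n` at
`s = m` with leading coefficient of absolute value `e^μ`.  Then for all real `ρ`, `ν`: `F(s) ≠ 0` for
`Re s > m`, `n = ρ` and `μ = ν` if and only if `G_1(x) ≥ -C log log x` for some `C` and
`G(x) + ρ (log log x + γ) - ν → 0` outside of sparse sets.

Part B.  The assumption on the traces holds for `H^{2m-1}(X)` with `D = dim H^{2m-1}(X)`, if `X` is a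
product of curves `y² = f_i(x)` over `K`, `deg f_i` odd, and `S` contains the places which divide `2`
or the leading coefficient of an `f_i`. -/
theorem result :
    (∀ (K : Type) [Field K] [NumberField K] (t : HeightOneSpectrum (𝓞 K) → ℕ → ℝ) (m : ℕ)
      (S : Finset (HeightOneSpectrum (𝓞 K))) (D : ℝ) (_ : WeightBound t m S D)
      (F : ℂ → ℂ) (n : ℤ) (μ : ℝ) (_ : Continues t m S F (m - 1)) (_ : HasLeading m F n μ)
      (_ : ∃ (C : ℝ) (A : ℕ), ∀ s : ℂ, (m : ℝ) - 1 < s.re → ‖F s‖ ≤ C * (1 + ‖s‖) ^ A)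
      (ρ ν : ℝ),
      (∀ s : ℂ, (m : ℝ) < s.re → F s ≠ 0) ∧ (n : ℝ) = ρ ∧ μ = ν ↔
        LowerMean t m S ∧ SparseLaw (dev t m S ρ ν)) ∧
    (∀ (K : Type) [Field K] [NumberField K] (n : ℕ) (f : Fin n → (𝓞 K)[X])
      (_ : ∀ i, Odd (f i).natDegree) (S : Finset (HeightOneSpectrum (𝓞 K)))
      (_ : ∀ v, v ∉ S → ∀ i, 2 * (f i).leadingCoeff ∉ v.asIdeal) (m : ℕ) (_ : 1 ≤ m),
      WeightBound (traceH f m) m S (bettiNumber f m)) := by
  refine ⟨?_, ?_⟩
  · intro K _ _ t m S D ht F n μ hF hl hg ρ ν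
    have E := tdata ht
    have hdv : ∀ ρ μ x : ℝ, Pool.Agent.W263.LG.MK (Pool.Agent.H341R2.sysK K)
        (S : Set (HeightOneSpectrum (𝓞 K))) t (2 * (m : ℝ) - 1) 0 x -
          Pool.Agent.W263.LG.mt ρ μ 0 x = dev t m S ρ μ x := by
      intro ρ μ x
      rw [MK_eq]
      unfold Pool.Agent.W263.LG.mt dev
      rw [harmonic_zero]
      push_cast
      ring
    have hcc : ((((2 * (m : ℝ) - 1) + 1) / 2 : ℝ) : ℂ) = (m : ℂ) := by
      rw [cen, Complex.ofReal_natCast]
    have hL : ∀ s, Pool.Agent.W263.EP.LF (Pool.Agent.H341R2.sysK K)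
        (S : Set (HeightOneSpectrum (𝓞 K))) t s = LFun t S s := by
      intro s
      unfold Pool.Agent.W263.EP.LF LFun
      refine tprod_congr fun (v : HeightOneSpectrum (𝓞 K)) => ?_
      by_cases hv : v ∈ S
      · have h1 : v ∈ (S : Set (HeightOneSpectrum (𝓞 K))) := hv
        exact (if_pos h1).trans (if_pos hv).symm
      · have h1 : v ∉ (S : Set (HeightOneSpectrum (𝓞 K))) := hv
        exact (if_neg h1).trans (if_neg hv).symm
    have key := Pool.Agent.W263.SP.gen_lead (F := F) (n := n) (L := μ) E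
      (fun s hs => hF.1 s (by rwa [cen] at hs))
      (fun s hs => (hF.2 s (by rwa [cen2] at hs)).trans (hL s).symm)
      (by rw [hcc]; exact hl.2.1)
      (by unfold Pool.Agent.W263.LG.CLim; rw [cen]; exact hl.2.2)
      (by rw [cen]; exact hg) ρ ν
    have hrk := Pool.Agent.W263.LG.RK_upper_iff E (k := 1)
    have key2 := key.trans (and_congr hrk
      (Pool.Agent.W263.SP.SparseLaw.congr (Eventually.of_forall (hdv ρ ν))))
    simp only [MK_eq] at key2
    rw [cen] at key2
    exact key2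
  · intro K _ _ n f hodd S hS m hm
    refine ⟨by positivity, fun v hv j hj => ?_⟩
    have h1 := Pool.Agent.W263.EP.trHk_bound f hodd (hS v hv) (2 * m - 1) j hj
    have h2 : ∀ i, traceH1 v (f i) j = Pool.Agent.H126T.traceH1 v (f i) 1 j := by
      intro i
      unfold traceH1 Pool.Agent.H126T.traceH1
      rw [map_one, affineCount_eq]
      rfl
    have h3 : traceH f m v j = (Pool.Agent.W263.EP.trHk v f (2 * m - 1) j : ℝ) := by
      unfold traceH Pool.Agent.W263.EP.trHk
      simp only [h2]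
      rfl
    have h4 : ((2 * m - 1 : ℕ) : ℝ) = 2 * (m : ℝ) - 1 := by
      rw [Nat.cast_sub (by omega)]; push_cast; ring
    rw [h3]
    rw [h4] at h1
    exact h1

end Pool.Agent.Results.MP_29b22a_nt.SparseExceptions
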