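import Pool.Agent.W76.BK.MotK
import Pool.Agent.W263.EP.Conc

/-!
# The order and the leading coefficient at the centre from Frobenius traces, unconditionally

`K` is a number field (`ℚ` in the problem).  A system of real numbers `t v j` stands for the traces
of the `j`-th power of the geometric Frobenius at the finite place `v` on `H = H^w(X)`, `X` smooth
projective over `K` (`w = i` in the problem); `S` is a finite set of places which contains the places
of bad reduction, and the Euler factors at the places of `S` are any inverse polynomials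
`B_v(Nv^{-s})⁻¹` without poles at the real points `s ≥ c`, where `c = (w+1)/2` is the centre (`c = m`
if `w = 2m-1`).  All that is used about the traces is the bound `|t v j| ≤ D Nv^{wj/2}`, which is
Deligne's theorem for all smooth projective `X`, with `D = dim H^w(X)`, and which Part B proves for all
cohomology groups of all products of curves `y² = f_j(x)`, `deg f_j` odd, over any number field.

`F` is any continuation of `L(H, s)` along the real half line `s ≥ c`, meromorphic at its points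
(condition (H1) of the problem; at the points `s > c` poles are allowed as well).  NOTHING is assumed
about zeros and poles, a functional equation, growth, or a continuation to complex points.  For
`T > 0` put

`S(T) = ∑_{v ∉ S, j ≥ 1} - t_v(j) / (j Nv^{jc} Γ(1 + (1 + i/√T) j log Nv / T))`.

The series converges absolutely and its weights tend to `1`, so `exp(S(T))` is a smooth version of
`∏_{v ∉ S, Nv ≤ x} det(1 - Frob_v Nv^{-c} | H)`, `T = log x`, the product of the inverse Euler factors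
at the centre.  With `n = ord_{s=c} F ∈ ℤ`, `L*` the leading Laurent coefficient of `F` at `c`,
`β = ∏_{v ∈ S} B_v(Nv^{-c})` and `κ = ∫_0^∞ (e^{-t} - 1/Γ(1+t)) dt/t`:

`exp(S(T)) / (e^{-κ} T)^n → 1 / (β L*)`,

and `S(T) - n (log T - κ) → - log |β L*| - iπ N`, `N` the number of real zeros minus the number of real
poles of `F` to the right of `c`, with multiplicity.

Hence parts (iii) and (iv) of Beilinson's conjecture for `X` are TOGETHER EQUIVALENT to an
explicit asymptotic law for Frobenius traces, for every `X` for which they have a meaning: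
`ord_{s=m} L = r` iff `exp(S(T)) / T^r` tends to a limit different from `0`, and `ord_{s=m} L = r`
with `L* ∈ ℚ^* Ω` (`r = dim V^m`, `Ω = det Π det⟨,⟩`) iff `exp(S(T)) / (e^{-κ} T)^r → 1/(q Ω β)` for a
rational `q ≠ 0`.  With sharp cut-offs one needs the Riemann hypothesis for `L(H, s)` and more for
such a statement, and with the real weights `1/Γ(1 + v)` the absence of real zeros.

Idea: `1/Γ(1 + κ v) = (2πi)⁻¹ ∫ exp(e^z) e^{-κ z v} dz` along the boundary of a half strip
`Re z ≥ a, |Im z| ≤ π`; the strip is rotated by the angle `1/√T` and so thin that it passes above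
all real zeros and poles, and below all others.
-/

set_option autoImplicit false

namespace Pool.Agent.Results.MP_29b22a_nt.UnconditionalLeadingTerm

open NumberField IsDedekindDomain Filter Topology Polynomial

variable {K : Type} [Field K] [NumberField K]

/-- `|t_v(j)| ≤ D Nv^{wj/2}` for all `v ∉ S` and all `j ≥ 1`. -/
def WeightBound (t : HeightOneSpectrum (𝓞 K) → ℕ → ℝ) (w : ℕ)
    (S : Finset (HeightOneSpectrum (𝓞 K))) (D : ℝ) : Prop :=
  0 ≤ D ∧ ∀ v, v ∉ S → ∀ j : ℕ, 1 ≤ j →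
    |t v j| ≤ D * (Ideal.absNorm v.asIdeal : ℝ) ^ ((w : ℝ) * j / 2)

open Classical in
/-- The Euler product `L(H, s)`.  At the places `v ∉ S` the factor is
`det(1 - Frob_v Nv^{-s} | H)⁻¹ = exp(∑_{j ≥ 1} t_v(j) Nv^{-js} / j)`; at the places of the finite set
`S` it is `B_v(Nv^{-s})⁻¹`. -/
noncomputable def LFun (t : HeightOneSpectrum (𝓞 K) → ℕ → ℝ) (S : Finset (HeightOneSpectrum (𝓞 K)))
    (B : HeightOneSpectrum (𝓞 K) → ℂ[X]) (s : ℂ) : ℂ :=
  ∏' v : HeightOneSpectrum (𝓞 K),
    if v ∈ S then ((B v).eval (((Ideal.absNorm v.asIdeal : ℕ) : ℂ) ^ (-s)))⁻¹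
    else Complex.exp (∑' m : ℕ, (t v (m + 1) : ℂ) *
      ((Ideal.absNorm v.asIdeal : ℕ) : ℂ) ^ (-((m + 1 : ℂ) * s)) / (m + 1))

/-- The centre `c = (w+1)/2`. -/
noncomputable def centre (w : ℕ) : ℝ := ((w : ℝ) + 1) / 2

/-- `F` continues `L(H, s)` along the real half line `s ≥ c` and is meromorphic at its points. -/
def ContinuesAlongReals (t : HeightOneSpectrum (𝓞 K) → ℕ → ℝ) (w : ℕ)
    (S : Finset (HeightOneSpectrum (𝓞 K))) (B : HeightOneSpectrum (𝓞 K) → ℂ[X]) (F : ℂ → ℂ) : Prop :=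
  (∀ s : ℝ, centre w ≤ s → MeromorphicAt F s) ∧
    ∀ s : ℝ, centre w + 1 / 2 < s → F s = LFun t S B s

/-- The inverse Euler factors of the places of `S` at the centre, `β = ∏_{v ∈ S} B_v(Nv^{-c})`. -/
noncomputable def badFactor (S : Finset (HeightOneSpectrum (𝓞 K)))
    (B : HeightOneSpectrum (𝓞 K) → ℂ[X]) (w : ℕ) : ℂ :=
  ∏ v ∈ S, (B v).eval (((Ideal.absNorm v.asIdeal : ℕ) : ℂ) ^ (-(centre w : ℂ)))

open Classical in
/-- The term `- t_v(j) / (j Nv^{jc} Γ(1 + (1 + i/√T) j log Nv / T))`, `x = (v, j - 1)`, `v ∉ S`. -/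
noncomputable def frobTerm (t : HeightOneSpectrum (𝓞 K) → ℕ → ℝ) (w : ℕ)
    (S : Finset (HeightOneSpectrum (𝓞 K))) (T : ℝ) (x : HeightOneSpectrum (𝓞 K) × ℕ) : ℂ :=
  if x.1 ∈ S then 0 else
    -((t x.1 (x.2 + 1) * (Ideal.absNorm x.1.asIdeal : ℝ) ^ (-(((x.2 : ℝ) + 1) * centre w)) : ℝ) : ℂ) /
      ((x.2 + 1) * Complex.Gamma (1 + (1 + Complex.I / Real.sqrt T) *
        ((x.2 + 1) * Real.log (Ideal.absNorm x.1.asIdeal : ℝ) / T)))

/-- The sum `S(T)` of all these terms. -/
noncomputable def frobSum (t : HeightOneSpectrum (𝓞 K) → ℕ → ℝ) (w : ℕ)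
    (S : Finset (HeightOneSpectrum (𝓞 K))) (T : ℝ) : ℂ := ∑' x, frobTerm t w S T x

/-- The constant `κ = ∫_0^∞ (e^{-t} - 1/Γ(1+t)) dt/t`. -/
noncomputable def kappa : ℝ :=
  ∫ t in Set.Ioi (0 : ℝ), (Real.exp (-t) - (Real.Gamma (1 + t))⁻¹) / t

/-! ### Products of curves -/

/-- Number of affine points of `y² = f(x)` with coordinates in the extension of degree `m` of the
finite field `k`, that is, the field of the elements of the algebraic closure of `k` that are fixed
by the `m`-th power of the Frobenius of `k`. -/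
noncomputable def affineCount (k : Type) [Field k] (f : k[X]) (m : ℕ) : ℕ :=
  Nat.card {P : AlgebraicClosure k × AlgebraicClosure k //
    P.1 ^ (Nat.card k ^ m) = P.1 ∧ P.2 ^ (Nat.card k ^ m) = P.2 ∧ P.2 ^ 2 = aeval P.1 f}

/-- Trace of the `m`-th power of the Frobenius at `v` on `H¹` of the smooth projective curve
`y² = f(x)`, `deg f` odd: it is `q^m + 1` minus the number of points over the field with `q^m`
elements, and there is one point at infinity. -/
noncomputable def traceH1 (v : HeightOneSpectrum (𝓞 K)) (f : (𝓞 K)[X]) (m : ℕ) : ℤ :=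
  haveI : v.asIdeal.IsMaximal := v.isMaximal
  letI : Field (𝓞 K ⧸ v.asIdeal) := Ideal.Quotient.field v.asIdeal
  (Ideal.absNorm v.asIdeal : ℤ) ^ m + 1 -
    (affineCount (𝓞 K ⧸ v.asIdeal) (f.map (Ideal.Quotient.mk v.asIdeal)) m + 1)

/-- Trace of the `m`-th power of the Frobenius at `v` on `H^k(X)`, `X` the product of the curves
`y² = f_j(x)`: by the Künneth formula it is the coefficient of `T^k` in
`∏_j (1 + Tr(Frob^m | H¹(C_j)) T + q^m T²)`. -/
noncomputable def traceH {n : ℕ} (f : Fin n → (𝓞 K)[X]) (k : ℕ) (v : HeightOneSpectrum (𝓞 K))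
    (m : ℕ) : ℝ :=
  (((∏ j, (1 + C (traceH1 v (f j) m) * X + C ((Ideal.absNorm v.asIdeal : ℤ) ^ m) * X ^ 2)).coeff k
    : ℤ) : ℝ)

/-- The dimension of `H^k(X)`: the coefficient of `T^k` in `∏_j (1 + 2g_j T + T²)`,
`2g_j = deg f_j - 1`. -/
noncomputable def bettiNumber {n : ℕ} (f : Fin n → (𝓞 K)[X]) (k : ℕ) : ℕ :=
  (∏ j, (1 + C ((f j).natDegree - 1) * X + X ^ 2 : ℕ[X])).coeff k

theorem affineCount_eq (k : Type) [Field k] (f : k[X]) (m : ℕ) :
    affineCount k f m = Pool.Agent.H126T.affPts k f 1 m := by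
  unfold affineCount Pool.Agent.H126T.affPts
  simp only [map_one, one_mul]

theorem order_iff {f : ℝ → ℂ} {r : ℕ} :
    (∃ l : ℂ, l ≠ 0 ∧ Tendsto (fun T : ℝ => f T / (T : ℂ) ^ r) atTop (𝓝 l)) ↔
    ∃ l : ℂ, l ≠ 0 ∧
      Tendsto (fun T : ℝ => f T / ((Real.exp (-kappa) * T : ℝ) : ℂ) ^ r) atTop (𝓝 l) := by
  have h0 : ((Real.exp (-kappa) : ℝ) : ℂ) ≠ 0 := by exact_mod_cast (Real.exp_pos _).ne'
  have h1 : ((Real.exp (-kappa) : ℝ) : ℂ) ^ r ≠ 0 := pow_ne_zero _ h0
  have e : ∀ T : ℝ, f T / ((Real.exp (-kappa) * T : ℝ) : ℂ) ^ r =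
      (((Real.exp (-kappa) : ℝ) : ℂ) ^ r)⁻¹ * (f T / (T : ℂ) ^ r) := by
    intro T
    rw [Complex.ofReal_mul, mul_pow, div_eq_mul_inv, mul_inv, div_eq_mul_inv]
    ring
  constructor
  · rintro ⟨l, hl, h⟩
    refine ⟨_, mul_ne_zero (inv_ne_zero h1) hl, ?_⟩
    simp only [e]
    exact h.const_mul _
  · rintro ⟨l, hl, h⟩
    refine ⟨_, mul_ne_zero h1 hl, ?_⟩
    simp only [e] at h
    refine (h.const_mul (((Real.exp (-kappa) : ℝ) : ℂ) ^ r)).congr fun T => ?_
    rw [← mul_assoc, mul_inv_cancel₀ h1, one_mul]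

/-- **The order and the leading coefficient at the centre from Frobenius traces.**

Part A.  Let `t` be a system of Frobenius traces of weight `w` over a number field `K`, as above, with
centre `c = (w+1)/2`, let `B_v`, `v ∈ S`, be polynomials with `B_v(Nv^{-s}) ≠ 0` for real `s ≥ c`, and
let `F` be any continuation of `L(H, s)` along the real half line `s ≥ c`, meromorphic at its points.
Then, unconditionally:

1. the series `S(T)` converges absolutely, `T > 0`;
2. `F` has an order `n ∈ ℤ` and a leading coefficient `L* ≠ 0` at `c`, `β ≠ 0`, `β L*` is real,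
`S(T) - n (log T - κ) → - log |β L*| - iπ N` and `exp(S(T)) / (e^{-κ} T)^n → 1/(β L*)`, where
`N = ∑_{σ ∈ Z} ord_σ F`, `Z` the finite set of the real zeros and poles `σ > c` of `F`;
3. for every `r`: `ord_c F = r` iff `exp(S(T)) / T^r` tends to a limit different from `0`;
4. for every `r` and every `Ω ≠ 0`: (`ord_c F = r` and `L* = q Ω` for a rational `q ≠ 0`) iff
`exp(S(T)) / (e^{-κ} T)^r → 1/(q Ω β)` for a rational `q ≠ 0`;
5. for every `r` and every `μ ≠ 0`: (`ord_c F = r` and `L* = μ`) iff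
`exp(S(T)) / (e^{-κ} T)^r → 1/(μ β)`.

Part B.  The bound assumed in Part A holds for `H^k(X)`, all `k`, with `w = k` and `D = dim H^k(X)`, if
`X` is a product of curves `y² = f_j(x)` over `K`, `deg f_j` odd, and `S` contains the places which
divide `2` or the leading coefficient of an `f_j`. -/
theorem result :
    (∀ (K : Type) [Field K] [NumberField K] (t : HeightOneSpectrum (𝓞 K) → ℕ → ℝ) (w : ℕ)
      (S : Finset (HeightOneSpectrum (𝓞 K))) (D : ℝ) (_ : WeightBound t w S D)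
      (B : HeightOneSpectrum (𝓞 K) → ℂ[X])
      (_ : ∀ v ∈ S, ∀ s : ℝ, centre w ≤ s →
        (B v).eval (((Ideal.absNorm v.asIdeal : ℕ) : ℂ) ^ (-(s : ℂ))) ≠ 0)
      (F : ℂ → ℂ) (_ : ContinuesAlongReals t w S B F),
      (∀ T : ℝ, 0 < T → Summable fun x => ‖frobTerm t w S T x‖) ∧
      (∃ (n : ℤ) (l : ℂ) (Z : Finset ℝ) (k : ℝ → ℤ),
        meromorphicOrderAt F (centre w) = n ∧ meromorphicTrailingCoeffAt F (centre w) = l ∧
        l ≠ 0 ∧ badFactor S B w ≠ 0 ∧ (l * badFactor S B w).im = 0 ∧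
        (∀ σ : ℝ, σ ∈ Z ↔ centre w < σ ∧ meromorphicOrderAt F (σ : ℂ) ≠ 0) ∧
        (∀ σ ∈ Z, meromorphicOrderAt F (σ : ℂ) = k σ) ∧
        Tendsto (fun T : ℝ => frobSum t w S T - n * (Real.log T - kappa)) atTop
          (𝓝 (-(Real.log ‖l * badFactor S B w‖ : ℝ) -
            (∑ σ ∈ Z, (k σ : ℂ)) * Real.pi * Complex.I)) ∧
        Tendsto (fun T : ℝ => Complex.exp (frobSum t w S T) /
          ((Real.exp (-kappa) * T : ℝ) : ℂ) ^ n) atTop (𝓝 (l * badFactor S B w)⁻¹)) ∧
      (∀ r : ℕ, meromorphicOrderAt F (centre w) = ((r : ℤ) : WithTop ℤ) ↔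
        ∃ a : ℂ, a ≠ 0 ∧ Tendsto (fun T : ℝ => Complex.exp (frobSum t w S T) / (T : ℂ) ^ r) atTop
          (𝓝 a)) ∧
      (∀ (r : ℕ) (Ω : ℂ), Ω ≠ 0 →
        ((meromorphicOrderAt F (centre w) = ((r : ℤ) : WithTop ℤ) ∧
          ∃ q : ℚ, q ≠ 0 ∧ meromorphicTrailingCoeffAt F (centre w) = q * Ω) ↔
        ∃ q : ℚ, q ≠ 0 ∧ Tendsto (fun T : ℝ => Complex.exp (frobSum t w S T) /
          ((Real.exp (-kappa) * T : ℝ) : ℂ) ^ r) atTop (𝓝 (q * Ω * badFactor S B w)⁻¹))) ∧
      (∀ (r : ℕ) (μ : ℂ), μ ≠ 0 →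
        ((meromorphicOrderAt F (centre w) = ((r : ℤ) : WithTop ℤ) ∧
          meromorphicTrailingCoeffAt F (centre w) = μ) ↔
        Tendsto (fun T : ℝ => Complex.exp (frobSum t w S T) /
          ((Real.exp (-kappa) * T : ℝ) : ℂ) ^ r) atTop (𝓝 (μ * badFactor S B w)⁻¹)))) ∧
    (∀ (K : Type) [Field K] [NumberField K] (n : ℕ) (f : Fin n → (𝓞 K)[X])
      (_ : ∀ j, Odd (f j).natDegree) (S : Finset (HeightOneSpectrum (𝓞 K)))
      (_ : ∀ v, v ∉ S → ∀ j, 2 * (f j).leadingCoeff ∉ v.asIdeal) (k : ℕ),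
      WeightBound (traceH f k) k S (bettiNumber f k)) := by
  refine ⟨?_, ?_⟩
  · intro K _ _ t w S D ht B hB F hF
    have E : Pool.Agent.W263.EP.TData (Pool.Agent.H341R2.sysK K)
        (Pool.Agent.W263.EP.tn (Pool.Agent.H341R2.sysK K)
          (S : Set (HeightOneSpectrum (𝓞 K))) t (w : ℝ)) D :=
      Pool.Agent.W263.EP.tdata ht.1 fun v hv m hm => ht.2 v hv m hm
    have hT : ∀ T x, frobTerm t w S T x =
        Pool.Agent.W76.BK.MotK.rotTerm (Pool.Agent.H341R2.sysK K) S t (w : ℝ) T x :=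
      fun T x => rfl
    have hS : ∀ T, frobSum t w S T =
        Pool.Agent.W76.BK.MotK.rotSum (Pool.Agent.H341R2.sysK K) S t (w : ℝ) T := fun T => rfl
    have hF2 : ∀ s : ℝ, ((w : ℝ) + 2) / 2 < s →
        F s = Pool.Agent.W263.EP.LFB (Pool.Agent.H341R2.sysK K) S B t s := by
      intro s hs
      have h1 : centre w + 1 / 2 < s := by
        unfold centre
        linarith
      exact hF.2 s h1
    obtain ⟨n, l, Z, k, h1, h2, h3, h4, h5, h6, h7, h8, h9, h10⟩ :=
      Pool.Agent.W76.BK.MotK.motive_rot (S := Pool.Agent.H341R2.sysK K) (Bs := S) (B := B)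
        (tr := t) (ω := (w : ℝ)) E hB hF.1 hF2
    have h10' : ∀ (r : ℕ) (μ : ℂ), μ ≠ 0 →
        ((meromorphicOrderAt F (centre w) = ((r : ℤ) : WithTop ℤ) ∧
          meromorphicTrailingCoeffAt F (centre w) = μ) ↔
        Tendsto (fun T : ℝ => Complex.exp (frobSum t w S T) /
          ((Real.exp (-kappa) * T : ℝ) : ℂ) ^ r) atTop (𝓝 (μ * badFactor S B w)⁻¹)) := by
      intro r μ hμ
      have h := h10 (r : ℤ) μ hμ
      simp only [zpow_natCast] at h
      exact h
    refine ⟨fun T hT' => Pool.Agent.W76.BK.MotK.rotTerm_summable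
      (S := Pool.Agent.H341R2.sysK K) (Bs := S) (tr := t) (ω := (w : ℝ)) E hT',
      ⟨n, l, Z, k, h1, h2, h3, h4, h5, h6, h7, h8, h9⟩, fun r => ?_, fun r Ω hΩ => ?_, h10'⟩
    · rw [order_iff]
      constructor
      · intro hr
        refine ⟨_, inv_ne_zero (mul_ne_zero h3 h4), (h10' r l h3).1 ⟨hr, h2⟩⟩
      · rintro ⟨a, ha, hlim⟩
        have hμ : (a * badFactor S B w)⁻¹ ≠ 0 := inv_ne_zero (mul_ne_zero ha h4)
        have e : ((a * badFactor S B w)⁻¹ * badFactor S B w)⁻¹ = a := by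
          have h4' : badFactor S B w ≠ 0 := h4
          field_simp
        refine ((h10' r _ hμ).2 ?_).1
        rw [e]
        exact hlim
    · constructor
      · rintro ⟨hr, q, hq, hl⟩
        have hq' : (q : ℂ) * Ω ≠ 0 := mul_ne_zero (by exact_mod_cast hq) hΩ
        exact ⟨q, hq, (h10' r _ hq').1 ⟨hr, hl⟩⟩
      · rintro ⟨q, hq, hlim⟩
        have hq' : (q : ℂ) * Ω ≠ 0 := mul_ne_zero (by exact_mod_cast hq) hΩ
        obtain ⟨h11, h12⟩ := (h10' r _ hq').2 hlim
        exact ⟨h11, q, hq, h12⟩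
  · intro K _ _ n f hodd S hS k
    refine ⟨by positivity, fun v hv m hm => ?_⟩
    have h1 := Pool.Agent.W263.EP.trHk_bound f hodd (hS v hv) k m hm
    have h2 : ∀ j, traceH1 v (f j) m = Pool.Agent.H126T.traceH1 v (f j) 1 m := by
      intro j
      unfold traceH1 Pool.Agent.H126T.traceH1
      rw [map_one, affineCount_eq]
      rfl
    have h3 : traceH f k v m = (Pool.Agent.W263.EP.trHk v f k m : ℝ) := by
      unfold traceH Pool.Agent.W263.EP.trHk
      simp only [h2]
      rfl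
    rw [h3]
    exact h1

end Pool.Agent.Results.MP_29b22a_nt.UnconditionalLeadingTerm
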